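import Pool.Agent.helper70.LZ.SpecZ

/-!
# MP_baa4d7_al, project LE, block BOUND-Z, row ZTH: the characters of `b(θ)` vanish outside of the sections of `D`
-/

set_option autoImplicit false

namespace Pool.Agent.LE

open Pool.Agent.helper58.DC Pool.Agent.DI Pool.Agent.GR Pool.Agent.OB Pool.Agent.DR Pool.Agent.FI Pool.Agent.FI3 Pool.Agent.FI4

/-- a sum of squares of absolute values -/
theorem ZTH_sq {G : Type} [Group G] (S : Set (G → ℂ)) (hS : S.Finite) (g : G)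
    (hc : ∀ ψ ∈ S, ψ g⁻¹ = (starRingEnd ℂ) (ψ g)) (h0 : Sf S g g = 0) : ∀ ψ ∈ S, ψ g = 0 := by
  unfold Sf at h0
  rw [finsum_mem_eq_finite_toFinset_sum _ hS] at h0
  have h1 : ∑ ψ ∈ hS.toFinset, ψ g * ψ g⁻¹ = ((∑ ψ ∈ hS.toFinset, Complex.normSq (ψ g) : ℝ) : ℂ) := by
    push_cast
    apply Finset.sum_congr rfl
    intro ψ hψ
    rw [hc ψ (hS.mem_toFinset.1 hψ), Complex.mul_conj]
  rw [h1] at h0
  have h2 : ∑ ψ ∈ hS.toFinset, Complex.normSq (ψ g) = 0 := by exact_mod_cast h0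
  rw [Finset.sum_eq_zero_iff_of_nonneg fun ψ _ => Complex.normSq_nonneg _] at h2
  intro ψ hψ
  exact Complex.normSq_eq_zero.1 (h2 ψ (hS.mem_toFinset.2 hψ))

/-- the `p`-part is a power -/
theorem ZTH_pow {p : ℕ} (hp : p.Prime) {G : Type} [Group G] [Finite G] {u v : G} (hu : PEl p u) (hv : PReg p v)
    (h : u * v = v * u) : ∃ k : ℤ, (u * v) ^ k = u := by
  obtain ⟨m, hm⟩ := hu
  have h1 : Nat.Coprime (p ^ m) (orderOf v) := Nat.Coprime.pow_left m ((Nat.Prime.coprime_iff_not_dvd hp).2 hv)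
  obtain ⟨a, b, hab⟩ := Nat.isCoprime_iff_coprime.2 h1
  refine ⟨b * (orderOf v : ℤ), ?_⟩
  have hc : Commute u v := h
  rw [hc.mul_zpow]
  have h2 : v ^ (b * (orderOf v : ℤ)) = 1 := by
    rw [mul_comm, zpow_mul, zpow_natCast, pow_orderOf_eq_one, one_zpow]
  have h3 : b * (orderOf v : ℤ) = 1 - a * ((p ^ m : ℕ) : ℤ) := by
    linarith
  have h4 : u ^ (b * (orderOf v : ℤ)) = u := by
    rw [h3, zpow_sub, zpow_one, mul_comm a, zpow_mul, zpow_natCast, hm, one_zpow, inv_one, mul_one]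
  rw [h2, h4, mul_one]

theorem ZTH (hQCN4 : QCN4_stmt) (hBRY : BRY_stmt) (hSTC : STC_stmt) (hB2 : B2_stmt) : ZTH_stmt := by
  intro p M hS G _ _ D x θ χ lo u v hu hv huv hC huD θ' hθ'
  obtain ⟨k, hk⟩ := ZTH_pow hS.pr hu hv huv
  have huC : u ∈ cz D := by
    rw [← hk]
    exact Subgroup.zpow_mem _ hC k
  have hvC : v ∈ cz D := by
    have h1 : v = u⁻¹ * (u * v) := by group
    rw [h1]
    exact (cz D).mul_mem ((cz D).inv_mem huC) hC
  have hvK : v ∈ Cz (cz D) u := mem_Cz.2 ⟨hvC, huv⟩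
  have hempty : Bq M (cz D) (Cz (cz D) u) θ = ∅ := by
    rw [Set.eq_empty_iff_forall_notMem]
    rintro η ⟨hη, hη'⟩
    obtain ⟨l, hl, h9, -⟩ := hQCN4 p M hS G D x θ χ lo D le_rfl u huC hu η hη hη'
    have h10 := hl
    rw [Subgroup.mem_centralizer_iff] at h10
    have h11 := h10 _ h9
    have h12 : u = l * u * l⁻¹ := by
      calc u = l⁻¹ * (l * u * l⁻¹ * l) := by group
        _ = l⁻¹ * (l * (l * u * l⁻¹)) := by rw [h11]
        _ = l * u * l⁻¹ := by group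
    rw [h12] at huD
    exact huD h9
  have h13 := hBRY p M hS G (cz D) u huC hu θ v hvK v hvK hv hv
  have h14 : Sf (Bq M (cz D) (Cz (cz D) u) θ) v v = 0 := by
    rw [hempty]
    unfold Sf
    exact finsum_mem_empty
  rw [h14] at h13
  exact ZTH_sq _ ((hB2 G (cz D)).1.subset fun φ h => h.1) _ (fun φ h => hSTC G (cz D) φ h.1 _) h13 θ' hθ'

end Pool.Agent.LE
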